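import Pool.Agent.Lib.MP_0dd0d9_ag.DerLoc

/-!
A sharp bound for a derivation on the integers of a finite extension at one place: the cost is
twice the sum of the logarithmic chordal distances from a primitive element to its conjugates.
-/

namespace Pool.Agent.Lib.MP_0dd0d9_ag

open Polynomial

variable {K : Type*} [Field K] {av : AbsoluteValue K ℝ}

theorem linloc_poly {F : Type*} [Field F] [Algebra F K] (hna : IsNonarchimedean av)
    {R : Type*} [CommRing R] [Algebra R K] (D : Derivation R K K)
    (h0 : ∀ a : F, av (algebraMap F K a) ≤ 1 → av (D (algebraMap F K a)) ≤ 1) {θ : K}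
    (hθ : av θ ≤ 1) (p : F[X]) (hp : ∀ i, av (algebraMap F K (p.coeff i)) ≤ 1) :
    av ((pco D (p.map (algebraMap F K))).eval θ) ≤ 1 ∧
      (∀ i, av (algebraMap F K ((derivative p).coeff i)) ≤ 1) ∧ av (aeval θ p) ≤ 1 := by
  refine ⟨?_, fun i => ?_, ?_⟩
  · have := derloc_eval_le hna (p := pco D (p.map (algebraMap F K))) le_rfl zero_le_one le_rfl
      (fun i => by rw [coeff_pco D.map_zero, coeff_map]; exact h0 _ (hp i)) hθ
    simpa using this
  · rw [coeff_derivative, map_mul, av.map_mul]
    have h2 : av (algebraMap F K ((i : F) + 1)) ≤ 1 := by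
      have := IsNonarchimedean.apply_natCast_le_one (n := i + 1) hna
      rw [Nat.cast_succ] at this
      rwa [map_add, map_one, map_natCast]
    exact mul_le_one₀ (hp _) (av.nonneg _) h2
  · have := derloc_eval_le hna (p := p.map (algebraMap F K)) le_rfl zero_le_one le_rfl
      (fun i => by rw [coeff_map]; exact hp i) hθ
    rw [eval_map_algebraMap] at this
    simpa using this

/-- The case of a primitive element with integral conjugates. -/
theorem linloc_int {F : Type*} [Field F] [Algebra F K] [IsAlgClosed K] [CharZero F]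
    (hna : IsNonarchimedean av) {R : Type*} [CommRing R] [Algebra R K] (D : Derivation R K K)
    (h0 : ∀ a : F, av (algebraMap F K a) ≤ 1 → av (D (algebraMap F K a)) ≤ 1) {θ : K}
    (hθ : IsIntegral F θ) (hroot : ∀ s : K, aeval s (minpoly F θ) = 0 → av s ≤ 1)
    (G : F[X]) (hG : ∀ s : K, aeval s (minpoly F θ) = 0 → av (aeval s G) ≤ 1) :
    av (aeval θ (derivative (minpoly F θ))) ^ 2 * av (D (aeval θ G)) ≤ 1 := by
  classical
  have hmon := minpoly.monic hθ
  have hsep : (minpoly F θ).Separable := (minpoly.irreducible hθ).separable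
  set μ : K[X] := (minpoly F θ).map (algebraMap F K) with hμ
  have hμm : μ.Monic := hmon.map _
  have hnd : μ.roots.Nodup := nodup_roots hsep.map
  set S : Finset K := μ.roots.toFinset with hS
  have hSv : S.val = μ.roots := by rw [hS, Multiset.toFinset_val, hnd.dedup]
  have hmem : ∀ s, s ∈ S ↔ aeval s (minpoly F θ) = 0 := fun s => by
    rw [hS, Multiset.mem_toFinset, mem_roots hμm.ne_zero, IsRoot.def, hμ, eval_map_algebraMap]
  have hnod : Lagrange.nodal S id = μ := by
    rw [Lagrange.nodal_eq, Finset.prod_eq_multiset_prod, hSv]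
    exact ((IsAlgClosed.splits μ).eq_prod_roots_of_monic hμm).symm
  have hcard : S.card = (minpoly F θ).natDegree := by
    rw [← Lagrange.natDegree_nodal (s := S) (v := id), hnod, hμ, hmon.natDegree_map]
  have hSM : ∀ z ∈ S, av z ≤ 1 := fun z hz => hroot z ((hmem z).1 hz)
  have hθ0 : aeval θ (minpoly F θ) = 0 := minpoly.aeval F θ
  have hθ1 := hroot θ hθ0
  have hμc : ∀ i, av (algebraMap F K ((minpoly F θ).coeff i)) ≤ 1 := fun i => by
    rw [← coeff_map, ← hμ, ← hnod]
    simpa using derloc_nodal_le hna le_rfl S hSM i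
  obtain ⟨a1, a2, -⟩ := linloc_poly hna D h0 hθ1 _ hμc
  set ρ := av (aeval θ (derivative (minpoly F θ))) with hρ
  have hρ0 : 0 ≤ ρ := av.nonneg _
  have hρ1 : ρ ≤ 1 := (linloc_poly hna D h0 hθ1 _ a2).2.2
  have hDθ : ρ * av (D θ) ≤ 1 := by
    have h1 := der_eval D μ θ
    rw [hμ, eval_map_algebraMap, hθ0, D.map_zero, derivative_map, eval_map_algebraMap] at h1
    rwa [eq_neg_of_add_eq_zero_left h1.symm, av.map_neg, av.map_mul] at a1
  have hDp : ∀ p : F[X], (∀ i, av (algebraMap F K (p.coeff i)) ≤ 1) →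
      ρ * av (D (aeval θ p)) ≤ 1 := by
    intro p hp
    obtain ⟨b1, b2, -⟩ := linloc_poly hna D h0 hθ1 p hp
    have b3 := (linloc_poly hna D h0 hθ1 _ b2).2.2
    rw [← eval_map_algebraMap, der_eval, derivative_map, eval_map_algebraMap]
    rcases le_max_iff.1 (hna ((pco D (p.map (algebraMap F K))).eval θ)
      (aeval θ (derivative p) * D θ)) with h | h
    · exact mul_le_one₀ hρ1 (av.nonneg _) (h.trans b1)
    · rw [av.map_mul] at h
      have h2 : av (aeval θ (derivative p)) * av (D θ) ≤ 1 * av (D θ) :=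
        mul_le_mul_of_nonneg_right b3 (av.nonneg _)
      rw [one_mul] at h2
      exact (mul_le_mul_of_nonneg_left (h.trans h2) hρ0).trans hDθ
  set g : F[X] := (G * derivative (minpoly F θ)) %ₘ minpoly F θ with hg
  have hgv : ∀ s : K, aeval s (minpoly F θ) = 0 →
      aeval s g = aeval s G * aeval s (derivative (minpoly F θ)) := fun s hs => by
    rw [hg, aeval_modByMonic_eq_self_of_root hs, map_mul]
  have hgd : g.degree < (minpoly F θ).degree := degree_modByMonic_lt _ hmon
  have hgd' : (g.map (algebraMap F K)).degree < S.card := by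
    rw [degree_map, hcard, ← degree_eq_natDegree hmon.ne_zero]
    exact hgd
  have hco : ∀ i, av (algebraMap F K (g.coeff i)) ≤ 1 := by
    intro i
    rw [← coeff_map, Lagrange.eq_interpolate (v := id) (Set.injOn_id _) hgd',
      Lagrange.interpolate_eq_nodalWeight_mul_nodal_div_X_sub_C, finsetSum_coeff]
    refine derloc_sum_le hna _ _ zero_le_one fun s hs => ?_
    have hs0 := (hmem s).1 hs
    have h3 : aeval s (derivative (minpoly F θ)) ≠ 0 := hsep.aeval_derivative_ne_zero hs0
    rw [coeff_mul_C, coeff_C_mul, ← Lagrange.nodal_erase_eq_nodal_div hs,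
      Lagrange.nodalWeight_eq_eval_derivative_nodal hs, hnod, hμ,
      derivative_map, eval_map_algebraMap, eval_map_algebraMap, id, hgv s hs0]
    have h1 : av ((Lagrange.nodal (S.erase s) id).coeff i) ≤ 1 := by
      simpa using derloc_nodal_le hna le_rfl _ (fun z hz => hSM z (Finset.mem_of_mem_erase hz)) i
    have h2 : (aeval s (derivative (minpoly F θ)))⁻¹ * (Lagrange.nodal (S.erase s) id).coeff i *
        (aeval s G * aeval s (derivative (minpoly F θ))) =
        (Lagrange.nodal (S.erase s) id).coeff i * aeval s G := by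
      field_simp
    rw [h2, av.map_mul]
    exact mul_le_one₀ h1 (av.nonneg _) (hG s hs0)
  have e1 := hDp g hco
  have e2 := hDp _ a2
  have e3 : aeval θ (derivative (minpoly F θ)) * D (aeval θ G) =
      D (aeval θ g) - aeval θ G * D (aeval θ (derivative (minpoly F θ))) := by
    rw [hgv θ hθ0, D.leibniz, smul_eq_mul, smul_eq_mul]
    ring
  have e4 : ρ * av (D (aeval θ G)) ≤
      max (av (D (aeval θ g))) (av (D (aeval θ (derivative (minpoly F θ))))) := by
    rw [hρ, ← av.map_mul, e3]
    refine derloc_sub_le hna (le_max_left _ _) (le_trans ?_ (le_max_right _ _))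
    rw [av.map_mul]
    exact mul_le_of_le_one_left (av.nonneg _) (hG θ hθ0)
  rw [sq, mul_assoc]
  rcases le_max_iff.1 e4 with h | h
  · exact (mul_le_mul_of_nonneg_left h hρ0).trans e1
  · exact (mul_le_mul_of_nonneg_left h hρ0).trans e2

theorem linloc_int' {F : Type*} [Field F] [Algebra F K] [IsAlgClosed K] [CharZero F]
    (hna : IsNonarchimedean av) {R : Type*} [CommRing R] [Algebra R K] (D : Derivation R K K)
    (h0 : ∀ a : F, av (algebraMap F K a) ≤ 1 → av (D (algebraMap F K a)) ≤ 1) {θ : K}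
    (hθ : IsIntegral F θ) (hroot : ∀ s : K, aeval s (minpoly F θ) = 0 → av s ≤ 1)
    {x : K} (hx : x ∈ IntermediateField.adjoin F {θ}) (hx1 : av x ≤ 1) :
    av (aeval θ (derivative (minpoly F θ))) ^ 2 * av (D x) ≤ 1 := by
  have hx' : x ∈ (IntermediateField.adjoin F {θ}).toSubalgebra := hx
  rw [IntermediateField.adjoin_simple_toSubalgebra_of_isAlgebraic hθ.isAlgebraic,
    Algebra.adjoin_singleton_eq_range_aeval] at hx'
  obtain ⟨g, hg⟩ := hx'
  replace hg : aeval θ g = x := hg
  have halg : IsAlgebraic F x := by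
    have := IntermediateField.adjoin.finiteDimensional hθ
    exact ((IsIntegral.of_finite F (⟨x, hx⟩ : IntermediateField.adjoin F {θ})).map
      (IntermediateField.val _)).isAlgebraic
  obtain ⟨a, A, h1, h2, h3⟩ := derloc_quot hna halg hx1
  have hr : ∀ s : K, aeval s (minpoly F θ) = 0 → aeval (aeval s g) a = 0 := by
    intro s hs
    have : minpoly F θ ∣ a.comp g := minpoly.dvd F θ (by rw [aeval_comp, hg, h1])
    rw [← aeval_comp]
    exact aeval_eq_zero_of_dvd_aeval_eq_zero this hs
  have e2 := linloc_int hna D h0 hθ hroot (A.comp g) fun s hs => by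
    rw [aeval_comp]
    exact (h3 _ (hr s hs)).1
  have e1 := linloc_int hna D h0 hθ hroot (g * A.comp g) fun s hs => by
    rw [map_mul, aeval_comp]
    exact (h3 _ (hr s hs)).2
  rw [aeval_comp, hg] at e2
  rw [map_mul, aeval_comp, hg] at e1
  have e3 : aeval x A * D x = D (x * aeval x A) - x * D (aeval x A) := by
    rw [D.leibniz, smul_eq_mul, smul_eq_mul]
    ring
  have e4 : av (D x) ≤ max (av (D (x * aeval x A))) (av (D (aeval x A))) := by
    have e5 := congrArg av e3
    rw [av.map_mul, h2, one_mul] at e5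
    rw [e5]
    refine derloc_sub_le hna (le_max_left _ _) (le_trans ?_ (le_max_right _ _))
    rw [av.map_mul]
    exact mul_le_of_le_one_left (av.nonneg _) hx1
  rcases le_max_iff.1 e4 with h | h
  · exact (mul_le_mul_of_nonneg_left h (by positivity)).trans e1
  · exact (mul_le_mul_of_nonneg_left h (by positivity)).trans e2

/-- A natural number far from finitely many elements. -/
theorem linloc_far (hna : IsNonarchimedean av) (hnat : ∀ n : ℕ, n ≠ 0 → av (n : K) = 1)
    (Rt : Finset K) : ∃ a : ℕ, ∀ s ∈ Rt, av (s - a) = max 1 (av s) := by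
  classical
  have h1 : ∀ a : ℕ, av (a : K) ≤ 1 := fun a => IsNonarchimedean.apply_natCast_le_one hna
  have h2 : ∀ (s : K) (a a' : ℕ), a < a' → av (s - a) < 1 → av (s - a') < 1 → False := by
    intro s a a' h ha ha'
    have h3 : ((a' - a : ℕ) : K) = (s - a) + -(s - a') := by
      rw [Nat.cast_sub h.le]
      ring
    have h4 := hnat (a' - a) (by omega)
    have h5 := hna (s - a) (-(s - a'))
    rw [← h3, h4, av.map_neg] at h5
    exact absurd h5 (not_le.2 (max_lt ha ha'))
  have h3 : ∃ a : ℕ, ∀ s ∈ Rt, 1 ≤ av (s - a) := by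
    by_contra hc
    push Not at hc
    choose f hf hf' using hc
    obtain ⟨a, a', hne, he⟩ := Finite.exists_ne_map_eq_of_infinite fun a => (⟨f a, hf a⟩ : Rt)
    have he' : f a = f a' := congrArg Subtype.val he
    rcases lt_or_gt_of_ne hne with h | h
    · exact h2 (f a) a a' h (hf' a) (he' ▸ hf' a')
    · exact h2 (f a) a' a h (he' ▸ hf' a') (hf' a)
  obtain ⟨a, ha⟩ := h3
  refine ⟨a, fun s hs => ?_⟩
  rcases le_or_gt (av s) 1 with h | h
  · rw [max_eq_left h]
    exact le_antisymm (derloc_sub_le hna h (h1 a)) (ha s hs)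
  · rw [max_eq_right h.le, sub_eq_add_neg]
    refine IsNonarchimedean.add_eq_left_of_lt hna ?_
    rw [av.map_neg]
    exact (h1 a).trans_lt h

theorem linloc_nonneg (hna : IsNonarchimedean av) {x y : K} (h : x ≠ y) :
    0 ≤ Real.posLog (av x) + Real.posLog (av y) - Real.log (av (x - y)) := by
  have h1 : av (x - y) ≤ max (av x) (av y) :=
    derloc_sub_le hna (le_max_left _ _) (le_max_right _ _)
  have h2 : 0 < av (x - y) := av.pos (sub_ne_zero.2 h)
  have a1 : 0 ≤ Real.posLog (av x) := Real.posLog_nonneg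
  have a2 : 0 ≤ Real.posLog (av y) := Real.posLog_nonneg
  rcases le_max_iff.1 h1 with h3 | h3
  · have := (Real.log_le_log h2 h3).trans (le_max_right 0 _)
    change _ ≤ Real.posLog (av x) at this
    linarith
  · have := (Real.log_le_log h2 h3).trans (le_max_right 0 _)
    change _ ≤ Real.posLog (av y) at this
    linarith

/-- The sharp local bound. -/
theorem linloc {F : Type*} [Field F] [Algebra F K] [IsAlgClosed K] [CharZero F]
    [Algebra.IsAlgebraic F K] [DecidableEq K] (hna : IsNonarchimedean av)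
    (hnat : ∀ n : ℕ, n ≠ 0 → av (n : K) = 1) {R : Type*} [CommRing R] [Algebra R K]
    (D : Derivation R K K)
    (h0 : ∀ a : F, av (algebraMap F K a) ≤ 1 → av (D (algebraMap F K a)) ≤ 1) (χ : K)
    (Rt : Finset K) (hRt : ∀ s, s ∈ Rt ↔ aeval s (minpoly F χ) = 0)
    {x : K} (hx : x ∈ IntermediateField.adjoin F {χ}) (hx1 : av x ≤ 1) :
    av (D x) ≤ Real.exp (2 * ∑ s ∈ Rt.erase χ,
      (Real.posLog (av χ) + Real.posLog (av s) - Real.log (av (χ - s)))) := by
  have : IsAlgClosure F K := ⟨inferInstance, inferInstance⟩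
  obtain ⟨a, ha⟩ := linloc_far hna hnat Rt
  have hne : ∀ s ∈ Rt, s - a ≠ 0 := fun s hs h => by
    have := ha s hs
    rw [h, map_zero] at this
    exact absurd (this.trans_ge (le_max_left _ _)) (by norm_num)
  have hχR : χ ∈ Rt := (hRt χ).2 (minpoly.aeval F χ)
  set θ : K := (χ - a)⁻¹ with hθ
  have hθi : IsIntegral F θ := (Algebra.IsAlgebraic.isAlgebraic θ).isIntegral
  have hconj : ∀ s' : K, aeval s' (minpoly F θ) = 0 → ∃ s ∈ Rt, s' = (s - a)⁻¹ := by
    intro s' hs'
    obtain ⟨σ, hσ⟩ := minpoly.exists_algEquiv_of_root' hθi.isAlgebraic hs'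
    refine ⟨σ χ, (hRt _).2 ?_, ?_⟩
    · rw [aeval_algEquiv, AlgHom.coe_comp, Function.comp_apply, minpoly.aeval, map_zero]
    · rw [← hσ, hθ, map_inv₀, map_sub, map_natCast]
  have hroot : ∀ s' : K, aeval s' (minpoly F θ) = 0 → av s' ≤ 1 := by
    intro s' hs'
    obtain ⟨s, hs, rfl⟩ := hconj s' hs'
    rw [map_inv₀, ha s hs]
    exact inv_le_one_of_one_le₀ (le_max_left _ _)
  have hxθ : x ∈ IntermediateField.adjoin F {θ} := by
    refine IntermediateField.adjoin_simple_le_iff.2 ?_ hx
    have : χ = θ⁻¹ + a := by rw [hθ, inv_inv, sub_add_cancel]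
    rw [this]
    exact add_mem (inv_mem (IntermediateField.mem_adjoin_simple_self F θ)) (natCast_mem _ a)
  have h1 := linloc_int' hna D h0 hθi hroot hxθ hx1
  have hmon := minpoly.monic hθi
  have hsep : (minpoly F θ).Separable := (minpoly.irreducible hθi).separable
  set μ : K[X] := (minpoly F θ).map (algebraMap F K) with hμ
  have hμm : μ.Monic := hmon.map _
  have hnd : μ.roots.Nodup := nodup_roots hsep.map
  set S : Finset K := μ.roots.toFinset with hS
  have hSv : S.val = μ.roots := by rw [hS, Multiset.toFinset_val, hnd.dedup]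
  have hmem : ∀ s, s ∈ S ↔ aeval s (minpoly F θ) = 0 := fun s => by
    rw [hS, Multiset.mem_toFinset, mem_roots hμm.ne_zero, IsRoot.def, hμ, eval_map_algebraMap]
  have hnod : Lagrange.nodal S id = μ := by
    rw [Lagrange.nodal_eq, Finset.prod_eq_multiset_prod, hSv]
    exact ((IsAlgClosed.splits μ).eq_prod_roots_of_monic hμm).symm
  have hθS : θ ∈ S := (hmem θ).2 (minpoly.aeval F θ)
  have hder : aeval θ (derivative (minpoly F θ)) = ∏ s' ∈ S.erase θ, (θ - s') := by
    have := Lagrange.eval_nodal_derivative_eval_node_eq (v := id) hθS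
    rw [hnod, hμ, derivative_map, eval_map_algebraMap, Lagrange.eval_nodal] at this
    exact this
  have hf : ∀ s' ∈ S.erase θ, s'⁻¹ + a ∈ Rt.erase χ ∧ Real.log (av (θ - s')) =
      -(Real.posLog (av χ) + Real.posLog (av (s'⁻¹ + a)) -
        Real.log (av (χ - (s'⁻¹ + a)))) := by
    intro s' hs'
    obtain ⟨s, hs, rfl⟩ := hconj s' ((hmem _).1 (Finset.mem_of_mem_erase hs'))
    have hsχ : s ≠ χ := fun h => Finset.ne_of_mem_erase hs' (by rw [h])
    rw [inv_inv, sub_add_cancel]
    refine ⟨Finset.mem_erase.2 ⟨hsχ, hs⟩, ?_⟩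
    have e1 : θ - (s - a)⁻¹ = -(χ - s) * ((χ - a)⁻¹ * (s - a)⁻¹) := by
      have b1 := hne χ hχR
      have b2 := hne s hs
      rw [hθ]
      field_simp
      ring
    have p1 : 0 < av (χ - s) := av.pos (sub_ne_zero.2 hsχ.symm)
    have p2 : 0 < max 1 (av χ) := lt_max_of_lt_left one_pos
    have p3 : 0 < max 1 (av s) := lt_max_of_lt_left one_pos
    rw [e1, av.map_mul, av.map_mul, av.map_neg, map_inv₀, map_inv₀, ha χ hχR, ha s hs,
      Real.log_mul p1.ne' (by positivity), Real.log_mul (by positivity) (by positivity),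
      Real.log_inv, Real.log_inv, Real.posLog_eq_log_max_one (av.nonneg _),
      Real.posLog_eq_log_max_one (av.nonneg _)]
    ring
  have hρ : 0 < av (aeval θ (derivative (minpoly F θ))) :=
    av.pos (hsep.aeval_derivative_ne_zero (minpoly.aeval F θ))
  have hlog : -Real.log (av (aeval θ (derivative (minpoly F θ)))) ≤ ∑ s ∈ Rt.erase χ,
      (Real.posLog (av χ) + Real.posLog (av s) - Real.log (av (χ - s))) := by
    rw [hder, map_prod, Real.log_prod (fun s' hs' =>
      (av.pos (sub_ne_zero.2 (Finset.ne_of_mem_erase hs').symm)).ne'),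
      Finset.sum_congr rfl fun s' hs' => (hf s' hs').2, Finset.sum_neg_distrib, neg_neg,
      ← Finset.sum_image (g := fun s' : K => s'⁻¹ + a) (f := fun s =>
        Real.posLog (av χ) + Real.posLog (av s) - Real.log (av (χ - s)))
        (fun u _ v _ h => inv_injective (add_right_cancel h))]
    refine Finset.sum_le_sum_of_subset_of_nonneg (fun s hs => ?_) fun s hs _ =>
      linloc_nonneg hna (Finset.ne_of_mem_erase hs).symm
    obtain ⟨s', hs', rfl⟩ := Finset.mem_image.1 hs
    exact (hf s' hs').1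
  have h2 : av (D x) ≤ Real.exp (2 * -Real.log (av (aeval θ (derivative (minpoly F θ))))) := by
    rw [show (2 : ℝ) * -Real.log (av (aeval θ (derivative (minpoly F θ)))) =
      -((2 : ℕ) * Real.log (av (aeval θ (derivative (minpoly F θ))))) by push_cast; ring,
      Real.exp_neg, Real.exp_nat_mul, Real.exp_log hρ, ← one_div, le_div_iff₀ (by positivity),
      mul_comm]
    exact h1
  exact h2.trans (Real.exp_le_exp.2 (by linarith))

end Pool.Agent.Lib.MP_0dd0d9_ag
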