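import Pool.Agent.Lib.MP_0dd0d9_ag.Glob
import Pool.Agent.Lib.MP_0dd0d9_ag.Lin.Loc

/-!
A finite system of places with product formula and bounded derivations, with a total cost that is
linear in the degree.
-/

namespace Pool.Agent.Lib.MP_0dd0d9_ag

open Polynomial

/-- The construction over an algebraically closed field of constants. -/
theorem linglob_core {k K : Type} [Field k] [Field K] [Algebra k K] [IsAlgClosed K] [IsAlgClosed k]
    [CharZero k] (e : k ≃+* ℂ) (t : K) (ht : Transcendental k t)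
    (halg : Algebra.IsAlgebraic (IntermediateField.adjoin k {t}) K) {b r : ℕ} (y : Fin r → K)
    (hB : ∀ c : Fin r → ℕ,
      (minpoly (IntermediateField.adjoin k {t}) (∑ i, (c i : K) * y i)).natDegree ≤ b)
    (Z : Finset K) :
    ∃ (S : Type) (_ : Fintype S) (av : S → AbsoluteValue K ℝ) (rr : S → ℝ),
      (∀ v, IsNonarchimedean (av v)) ∧ (∀ v, Nonempty (Transfer K (av v))) ∧
      (∀ v, ∃ ϖ : K, 0 < av v ϖ ∧ av v ϖ < 1) ∧
      (∀ v (a : k), av v (algebraMap k K a) ≤ 1) ∧
      (∀ z ∈ Z, z ≠ 0 → ∑ v, Real.log (av v z) = 0) ∧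
      (∀ z ∈ Z, z ∉ (algebraMap k K).range → ∃ v, 1 < av v z) ∧
      (∀ v, 0 ≤ rr v) ∧
      ∑ v, rr v ≤ 4 * b * ∑ v, ∑ i, Real.posLog (av v (y i)) ∧
      ∀ {R : Type} [CommRing R] [Algebra R K] (D : Derivation R K K),
        (∀ a : k, D (algebraMap k K a) ∈ (algebraMap k K).range) →
        D t ∈ (algebraMap k K).range →
        (∀ x ∈ IntermediateField.adjoin k {t}, D x ∈ IntermediateField.adjoin k {t}) →
        ∀ v, ∀ x ∈ IntermediateField.adjoin k (Set.range y), av v x ≤ 1 →
          av v (D x) ≤ Real.exp (rr v) := by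
  classical
  obtain ⟨av0, hP, hT⟩ := glob_places e t ht halg
  set F := IntermediateField.adjoin k {t} with hF
  have : CharZero F := algebraRat.charZero F
  obtain ⟨c, hχ, hyχ, -⟩ := prim (F := F) y
    (fun i => (Algebra.IsAlgebraic.isAlgebraic (y i)).isIntegral)
    (B := Finset.univ.sup fun i => (minpoly F (y i)).natDegree) fun i =>
      Finset.le_sup (f := fun i => (minpoly F (y i)).natDegree) (Finset.mem_univ i)
  have hdeg := hB c
  set χ : K := ∑ i, (c i : K) * y i with hχdef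
  set μ := minpoly F χ with hμ
  set Rt : Finset K := (μ.map (algebraMap F K)).roots.toFinset with hRtdef
  have hRt : ∀ s, s ∈ Rt ↔ aeval s μ = 0 := by
    intro s
    rw [hRtdef, Multiset.mem_toFinset, mem_roots ((minpoly.monic hχ).map _).ne_zero, IsRoot,
      eval_map_algebraMap]
  have hcard : Rt.card ≤ b := by
    refine (Multiset.toFinset_card_le _).trans ((card_roots' _).trans ?_)
    rw [natDegree_map]
    exact hdeg
  set W : Finset K := Z ∪ Rt ∪ Rt.image (fun s => χ - s) with hW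
  have hZW : ∀ z ∈ Z, z ∈ W := fun z hz => by simp [hW, hz]
  have hRW : ∀ z ∈ Rt, z ∈ W := fun z hz => by simp [hW, hz]
  have hDW : ∀ s ∈ Rt, χ - s ∈ W := fun s hs =>
    Finset.mem_union_right _ (Finset.mem_image_of_mem _ hs)
  obtain ⟨G, _, σ, hG1, hG2, hG3, hG4⟩ := glob_gal (F := F) W
  have hmemF : ∀ x : K, x ∈ (algebraMap F K).range → x ∈ F := by
    rintro _ ⟨a, rfl⟩
    exact a.2
  have hfix : ∀ g, ∀ x ∈ F, σ g x = x := fun g x hx => (σ g).commutes ⟨x, hx⟩
  have hpf : ∀ w : K, ∃ P0 : Finset (Option k), w ∈ W → w ≠ 0 → ∀ P : Finset (Option k), P0 ⊆ P →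
      ∑ p ∈ P, ∑ g, Real.log (av0 p (σ g w)) = 0 := by
    intro w
    by_cases h : w ∈ W ∧ w ≠ 0
    · have hne : ∀ g, σ g w ≠ 0 := fun g => (map_ne_zero (σ g)).mpr h.2
      obtain ⟨P0, hP0⟩ := pf_sum hP (hmemF _ (hG3 w h.1))
        (Finset.prod_ne_zero_iff.mpr fun g _ => hne g)
      refine ⟨P0, fun _ _ P hPP => ?_⟩
      rw [← hP0 P hPP]
      refine Finset.sum_congr rfl fun p _ => ?_
      rw [map_prod, Real.log_prod]
      exact fun g _ => (av0 p).ne_zero (hne g)
    · exact ⟨∅, fun h1 h2 => absurd ⟨h1, h2⟩ h⟩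
  choose P0 hP0 using hpf
  have hpole : ∀ w : K, ∃ p : Option k, w ∈ W → w ∉ (algebraMap k K).range →
      ∃ g, 1 < av0 p (σ g w) := by
    intro w
    by_contra hcon
    push Not at hcon
    obtain ⟨hw, hwk, -⟩ := hcon none
    apply hwk
    set Q : K[X] := ∏ g, (X - C (σ g w)) with hQ
    have hQm : Q.Monic := monic_prod_of_monic _ _ fun g _ => monic_X_sub_C _
    have hQc : ∀ n, Q.coeff n ∈ (algebraMap k K).range := fun n =>
      pf_const hP (hmemF _ (hG2 w hw n)) fun p =>
        glob_coeff_le (av0 p) (hP.na p) _ _ (hcon p).2.2 n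
    have hQl : Q ∈ Polynomial.lifts (algebraMap k K) := (lifts_iff_coeff_lifts Q).mpr hQc
    obtain ⟨q, hq1, -, hq3⟩ := lifts_and_degree_eq_and_monic hQl hQm
    have hint : IsIntegral k w := by
      refine ⟨q, hq3, ?_⟩
      rw [← eval_map, hq1, hQ, eval_prod]
      obtain ⟨g, hg⟩ := hG1 w hw
      exact Finset.prod_eq_zero (Finset.mem_univ g) (by simp [hg])
    have h1 : (minpoly k w).degree = 1 :=
      IsAlgClosed.degree_eq_one_of_irreducible k (minpoly.irreducible hint)
    exact minpoly.mem_range_of_degree_eq_one k w h1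
  choose pw hpw using hpole
  set P : Finset (Option k) := W.biUnion P0 ∪ W.image pw with hPdef
  let av : P × G → AbsoluteValue K ℝ := fun v =>
    (av0 v.1.1).comp (f := ((σ v.2).toRingEquiv : K →+* K)) (σ v.2).toRingEquiv.injective
  have hav : ∀ v x, av v x = av0 v.1.1 (σ v.2 x) := fun v x => rfl
  have hsum : ∀ f : Option k → G → ℝ, ∑ v : P × G, f v.1.1 v.2 = ∑ p ∈ P, ∑ g, f p g := by
    intro f
    rw [Fintype.sum_prod_type, ← Finset.sum_coe_sort P]
  have hna : ∀ v, IsNonarchimedean (av v) := by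
    intro v x x'
    rw [hav, hav, hav, map_add]
    exact hP.na _ _ _
  have hprod : ∀ w ∈ W, w ≠ 0 → ∑ v, Real.log (av v w) = 0 := by
    intro w hw h0
    simp only [hav]
    rw [hsum fun p g => Real.log (av0 p (σ g w))]
    exact hP0 w hw h0 P fun p hp =>
      Finset.mem_union_left _ (Finset.mem_biUnion.mpr ⟨w, hw, hp⟩)
  have htF : t ∈ F := IntermediateField.mem_adjoin_simple_self k t
  refine ⟨P × G, inferInstance, av, fun v => 2 * ∑ s ∈ Rt.erase χ,
    (Real.posLog (av v χ) + Real.posLog (av v s) - Real.log (av v (χ - s))), hna, ?_, ?_, ?_,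
    fun z hz => hprod z (hZW z hz), ?_, fun v => mul_nonneg zero_le_two (Finset.sum_nonneg
      fun s hs => linloc_nonneg (hna v) (Finset.ne_of_mem_erase hs).symm), ?_, ?_⟩
  · intro v
    obtain ⟨Tr⟩ := hT v.1.1
    exact Transfer.comp _ Tr _
  · rintro ⟨⟨p, hp⟩, g⟩
    have hlt : Real.exp (-1) < 1 := Real.exp_lt_one_iff.mpr (by norm_num)
    cases p with
    | none =>
      refine ⟨t⁻¹, ?_⟩
      rw [hav, hfix _ _ (inv_mem htF), map_inv₀, hP.inf, ← Real.exp_neg]
      exact ⟨Real.exp_pos _, hlt⟩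
    | some p =>
      refine ⟨t - algebraMap k K p, ?_⟩
      rw [hav, hfix _ _ (sub_mem htF (F.algebraMap_mem p)), hP.fin]
      exact ⟨Real.exp_pos _, hlt⟩
  · intro v a
    rw [hav, hfix _ _ (F.algebraMap_mem a)]
    by_cases ha : a = 0
    · simp [ha]
    · exact (hP.cst _ a ha).le
  · intro z hz hzk
    obtain ⟨g, hg⟩ := hpw z (hZW z hz) hzk
    exact ⟨(⟨pw z, Finset.mem_union_right _ (Finset.mem_image_of_mem _ (hZW z hz))⟩, g), hg⟩
  · set Y : ℝ := ∑ v, ∑ i, Real.posLog (av v (y i)) with hY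
    have hχR : χ ∈ Rt := (hRt χ).mpr (minpoly.aeval F χ)
    have hconj : ∀ s ∈ Rt, ∑ v, Real.posLog (av v s) ≤ Y := by
      intro s hs
      have h1 : ∑ v, Real.posLog (av v s) = ∑ v, Real.posLog (av v χ) := by
        simp only [hav]
        rw [hsum fun p g => Real.posLog (av0 p (σ g s)),
          hsum fun p g => Real.posLog (av0 p (σ g χ))]
        exact Finset.sum_congr rfl fun p _ =>
          hG4 χ (hRW χ hχR) s (hRW s hs) ((hRt s).mp hs) fun x => Real.posLog (av0 p x)
      rw [h1]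
      exact Finset.sum_le_sum fun v _ => glob_sum_le (av v) (hna v) c y
    have hY0 : 0 ≤ Y :=
      Finset.sum_nonneg fun _ _ => Finset.sum_nonneg fun _ _ => Real.posLog_nonneg
    have hcardR : ((Rt.erase χ).card : ℝ) ≤ b := by
      exact_mod_cast Finset.card_erase_le.trans hcard
    have hterm : ∀ s ∈ Rt.erase χ, ∑ v, (Real.posLog (av v χ) + Real.posLog (av v s) -
        Real.log (av v (χ - s))) ≤ 2 * Y := by
      intro s hs
      have hs' := Finset.mem_of_mem_erase hs
      rw [Finset.sum_sub_distrib, Finset.sum_add_distrib,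
        hprod _ (hDW s hs') (sub_ne_zero.2 (Finset.ne_of_mem_erase hs).symm)]
      have := hconj χ hχR
      have := hconj s hs'
      linarith
    rw [← Finset.mul_sum, Finset.sum_comm]
    have h2 := Finset.sum_le_card_nsmul _ _ _ hterm
    rw [nsmul_eq_mul] at h2
    have h3 : ((Rt.erase χ).card : ℝ) * (2 * Y) ≤ b * (2 * Y) := by gcongr
    linarith
  · intro R _ _ D hk hDt hst v x hx hx1
    refine linloc (F := F) (hna v) (fun n hn => ?_) D ?_ χ Rt hRt ?_ hx1
    · rw [hav, map_natCast, ← map_natCast (algebraMap k K)]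
      exact hP.cst _ _ (Nat.cast_ne_zero.2 hn)
    · intro a ha
      have ha' : (a : K) ∈ F := a.2
      change av v (a : K) ≤ 1 at ha
      change av v (D (a : K)) ≤ 1
      rw [hav, hfix _ _ ha'] at ha
      rw [hav, hfix _ _ (hst _ ha')]
      exact pf_der hP D hk hDt ha' _ ha
    · have hle : IntermediateField.adjoin k (Set.range y) ≤
          (IntermediateField.adjoin F {χ}).restrictScalars k := by
        rw [IntermediateField.adjoin_le_iff]
        rintro _ ⟨i, rfl⟩
        exact hyχ i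
      exact hle hx

/-- As `glob`, with a bound `b` for the degree of the field generated by the `y i`. -/
theorem linglob (b r m : ℕ) :
    ∀ {K : Type} [Field K] [Algebra ℂ K] [IsAlgClosed K] (T : Fin (m + 1) → K),
      IsTranscendenceBasis ℂ T → ∀ (D : Fin (m + 1) → Derivation ℂ K K),
      (∀ i j, D j (T i) = if i = j then 1 else 0) → ∀ (y : Fin r → K),
      (∀ c : Fin r → ℕ, (minpoly (IntermediateField.adjoin ℂ (Set.range T))
        (∑ i, (c i : K) * y i)).natDegree ≤ b) →
      ∀ (Z : Finset K),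
      ∃ (S : Type) (_ : Fintype S) (av : S → AbsoluteValue K ℝ) (rr : S → ℝ),
        (∀ v, IsNonarchimedean (av v)) ∧ (∀ v, Nonempty (Transfer K (av v))) ∧
        (∀ v, ∃ ϖ : K, 0 < av v ϖ ∧ av v ϖ < 1) ∧
        (∀ v (a : ℂ), av v (algebraMap ℂ K a) ≤ 1) ∧ (∀ v (i : Fin m), av v (T i.succ) ≤ 1) ∧
        (∀ z ∈ Z, z ≠ 0 → ∑ v, Real.log (av v z) = 0) ∧
        (∀ z ∈ Z, D 0 z ≠ 0 → ∃ v, 1 < av v z) ∧
        (∀ v, 0 ≤ rr v) ∧ ∑ v, rr v ≤ 4 * b * ∑ v, ∑ i, Real.posLog (av v (y i)) ∧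
        ∀ v j, ∀ x ∈ IntermediateField.adjoin ℂ (Set.range y), av v x ≤ 1 →
          av v (D j x) ≤ Real.exp (rr v) := by
  intro K _ _ _ T hT D hD y hy Z
  set S0 : Set K := Set.range fun i : Fin m => T i.succ with hS0
  set k0 := IntermediateField.adjoin ℂ S0 with hk0
  let k : IntermediateField ℂ K := (algebraicClosure k0 K).restrictScalars ℂ
  have hk : ∀ x : K, x ∈ k ↔ IsAlgebraic k0 x := fun x => mem_algebraicClosure_iff
  have : IsAlgClosed k := (algebraicClosure.isAlgClosure k0 K).isAlgClosed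
  have : CharZero k := algebraRat.charZero k
  obtain ⟨e⟩ := glob_equiv hT k
  have hrange : ∀ x : K, x ∈ (algebraMap k K).range ↔ x ∈ k := by
    intro x
    refine ⟨?_, fun h => ⟨⟨x, h⟩, rfl⟩⟩
    rintro ⟨a, rfl⟩
    exact a.2
  have hS0k : S0 ⊆ k := fun x hx =>
    (hk x).mpr (isAlgebraic_algebraMap (⟨x, IntermediateField.subset_adjoin ℂ S0 hx⟩ : k0))
  have hD0 : ∀ x ∈ k, D 0 x = 0 := by
    intro x hx
    refine der_eq_zero_of_alg (D 0) (S := S0) ?_ ((hk x).mp hx)
    rintro _ ⟨i, rfl⟩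
    rw [hD, if_neg (Fin.succ_ne_zero i)]
  have hDT : ∀ i j, D j (T i) ∈ k := by
    intro i j
    rw [hD]
    split_ifs
    · exact one_mem k
    · exact zero_mem k
  have hDk : ∀ j, ∀ x ∈ k, D j x ∈ k := by
    intro j x hx
    refine der_stable (D j) k hS0k ?_ hx ((hk x).mp hx)
    rintro _ ⟨i, rfl⟩
    exact hDT _ _
  have ht : Transcendental k (T 0) := by
    intro h
    have h1 : (minpoly k (T 0)).degree = 1 :=
      IsAlgClosed.degree_eq_one_of_irreducible k (minpoly.irreducible h.isIntegral)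
    have h2 := hD0 _ ((hrange _).mp (minpoly.mem_range_of_degree_eq_one k (T 0) h1))
    rw [hD, if_pos rfl] at h2
    exact one_ne_zero h2
  set F := IntermediateField.adjoin k {T 0} with hF
  set E := IntermediateField.adjoin ℂ (Set.range T) with hE
  have hkF : ∀ x ∈ k, x ∈ F := fun x hx => F.algebraMap_mem ⟨x, hx⟩
  have htF : T 0 ∈ F := IntermediateField.mem_adjoin_simple_self k (T 0)
  have hEF : E ≤ F.restrictScalars ℂ := by
    rw [hE, IntermediateField.adjoin_le_iff]
    rintro _ ⟨i, rfl⟩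
    refine Fin.cases htF (fun i => ?_) i
    exact hkF _ (hS0k ⟨i, rfl⟩)
  let φ : E →+* F := (algebraMap E K).codRestrict F fun a => hEF a.2
  have hφ : ∀ a, algebraMap F K (φ a) = algebraMap E K a := fun a => rfl
  have hEalg : Algebra.IsAlgebraic E K := hT.isAlgebraic_field
  have halg : Algebra.IsAlgebraic F K := ⟨fun x =>
    (glob_minpoly φ hφ (hEalg.isAlgebraic x).isIntegral).1.isAlgebraic⟩
  have hB : ∀ c : Fin r → ℕ, (minpoly F (∑ i, (c i : K) * y i)).natDegree ≤ b := fun c =>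
    (glob_minpoly φ hφ (hEalg.isAlgebraic _).isIntegral).2.trans (hy c)
  obtain ⟨S, iS, av, rr, h1, h2, h3, h4, h5, h6, h7, h8, h9⟩ :=
    linglob_core e (T 0) ht halg y hB Z
  refine ⟨S, iS, av, rr, h1, h2, h3, ?_, ?_, h5, ?_, h7, h8, ?_⟩
  · intro v a
    exact h4 v (algebraMap ℂ k a)
  · intro v i
    exact h4 v ⟨T i.succ, hS0k ⟨i, rfl⟩⟩
  · intro z hz hDz
    exact h6 z hz fun h => hDz (hD0 z ((hrange z).mp h))
  · intro v j x hx hx1
    refine h9 (D j) (fun a => (hrange _).mpr (hDk j _ a.2)) ((hrange _).mpr (hDT 0 j)) ?_ v x ?_ hx1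
    · intro x hx
      have hsub : F.restrictScalars ℂ ≤ IntermediateField.adjoin ℂ ((k : Set K) ∪ {T 0}) :=
        (IntermediateField.restrictScalars_adjoin ℂ k {T 0}).le
      refine der_stable (D j) (S := (k : Set K) ∪ {T 0}) (F.restrictScalars ℂ) ?_ ?_ hx ?_
      · rintro z (hz | hz)
        · exact hkF z hz
        · rw [Set.mem_singleton_iff.mp hz]
          exact htF
      · rintro z (hz | hz)
        · exact hkF _ (hDk j z hz)
        · rw [Set.mem_singleton_iff.mp hz]
          exact hkF _ (hDT 0 j)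
      · exact isAlgebraic_algebraMap
          (⟨x, hsub hx⟩ : IntermediateField.adjoin ℂ ((k : Set K) ∪ {T 0}))
    · have hle : IntermediateField.adjoin ℂ (Set.range y) ≤
          (IntermediateField.adjoin k (Set.range y)).restrictScalars ℂ := by
        rw [IntermediateField.adjoin_le_iff]
        exact IntermediateField.subset_adjoin k _
      exact hle hx

end Pool.Agent.Lib.MP_0dd0d9_ag
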