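import Pool.Agent.Lib.MP_0dd0d9_ag.Red3
import Pool.Agent.Lib.MP_0dd0d9_ag.Lin.Core

/-!
Reduction of the statement about the components to the universal map.
-/

namespace Pool.Agent.Lib.MP_0dd0d9_ag

open Polynomial

/-- The data required by the core theorem. -/
theorem linred_data {d : ℕ} (hd : 2 ≤ d) {K Om ι : Type} [Field K] [Field Om] [Algebra ℂ K]
    [Algebra ℂ Om] [IsAlgClosed Om] (c : Fin (2 * d + 1) → Om) (hc : IsTranscendenceBasis ℂ c)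
    (w : Fin 3 → Om) (winj : Function.Injective w)
    (hw : ∀ s, wedge ((app (FU d c))^[3] ![w s, 1]) ![w s, 1] = 0) {n : ℕ} (hn : 1 ≤ n)
    (cb : Fin d ⊕ Fin (d - 1) → K) (hgen : IntermediateField.adjoin ℂ (Set.range cb) = ⊤)
    (htr : ((2 * d - 2 : ℕ) : Cardinal) ≤ Algebra.trdeg ℂ K)
    (hP : ∀ (L : Type) [Field L] [Algebra ℂ L] (φ : K →ₐ[ℂ] L),
      (∀ x : V L, x ≠ 0 → app (sF d fun i => φ (cb i)) x ≠ 0) ∧
        ExactPer (sF d fun i => φ (cb i)) n ![0, 1])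
    (t : ι → K) (ht : IsTranscendenceBasis ℂ t) {B : ℕ}
    (hB : Module.finrank (IntermediateField.adjoin ℂ (Set.range t)) K ≤ B) :
    ∃ (x0 : Om) (T : Fin (2 * d + 1) → Om), ExactPer (FU d c) n ![x0, 1] ∧
      IsTranscendenceBasis ℂ T ∧ (∀ s, ∃ i : Fin (2 * d), T i.succ = w s) ∧
      ∀ cc : Fin (2 * d + 1 + 1) → ℕ, (minpoly (IntermediateField.adjoin ℂ (Set.range T))
        (∑ i, (cc i : Om) * (Fin.cons x0 c : Fin (2 * d + 1 + 1) → Om) i)).natDegree ≤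
        B * (d ^ 3 + 1) ^ 3 := by
  obtain ⟨htr', φ, γ, u, hγ, hu, h11, h⟩ := red2 hd hn cb hgen htr hP c hc.1
  obtain ⟨hnz, hper⟩ := hP Om φ
  have hF : IsHom d (FU d c) := isHom_mk _ _ _
  obtain ⟨e⟩ : Nonempty (ι ≃ Fin (2 * d - 2)) :=
    Cardinal.mk_eq_nat_iff.1 (ht.cardinalMk_eq_trdeg.trans htr')
  set T : Fin (2 * d + 1) → Om := fun j =>
    if hj : j.val < 2 * d - 2 then φ (t (e.symm ⟨j.val, hj⟩))
    else w ⟨j.val - (2 * d - 2), by omega⟩ with hT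
  have T1 : ∀ i, φ (t i) ∈ Set.range T := fun i => ⟨⟨(e i).val, by omega⟩, by
    simp only [hT, dif_pos (e i).2, Fin.eta, Equiv.symm_apply_apply]⟩
  have T2 : ∀ s, ∃ i : Fin (2 * d), T i.succ = w s := fun s => ⟨⟨2 * d - 3 + s.val, by omega⟩, by
    have a1 : ¬ (2 * d - 3 + s.val + 1 < 2 * d - 2) := by omega
    simp only [hT, Fin.succ_mk, dif_neg a1]
    congr 1
    exact Fin.ext (by simp only; omega)⟩
  set F1 := IntermediateField.adjoin ℂ (Set.range T) with hF1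
  have := red3_fin cb hgen ht
  obtain ⟨E0, a1, a2, a3⟩ := red3_base t φ F1
    (fun i => IntermediateField.subset_adjoin ℂ _ (T1 i))
  obtain ⟨E, b1, b2, b3, b4⟩ := red3_field hd c w winj hw cb φ hnz γ u hγ hu h F1
    (fun s => IntermediateField.subset_adjoin ℂ _ (by
      obtain ⟨i, hi⟩ := T2 s
      exact ⟨_, hi⟩)) E0 a3
  have deg : ∀ x ∈ E, (minpoly F1 x).natDegree ≤ B * (d ^ 3 + 1) ^ 3 := fun x hx => by
    have := minpoly.natDegree_le (A := F1) (⟨x, hx⟩ : E)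
    rw [IntermediateField.minpoly_eq] at this
    exact this.trans (b2.trans (Nat.mul_le_mul_right _ (a2.trans hB)))
  have ex : γ.mulVec ![0, 1] = γ 1 1 • ![γ 0 1 / γ 1 1, 1] := by
    ext i
    fin_cases i
    · simp [Matrix.mulVec, dotProduct, Fin.sum_univ_two, mul_div_cancel₀ _ h11]
    · simp [Matrix.mulVec, dotProduct, Fin.sum_univ_two]
  refine ⟨γ 0 1 / γ 1 1, T, ⟨(red3_wedge hF hu hγ h n h11 ex).2 hper.1, fun i h1 h2 c0 =>
    hper.2 i h1 h2 ((red3_wedge hF hu hγ h i h11 ex).1 c0)⟩, ?_, T2, fun cc => deg _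
      (sum_mem fun i _ => mul_mem (natCast_mem _ _) (Fin.cases b4 b3 i))⟩
  have : Algebra.IsAlgebraic (Algebra.adjoin ℂ (Set.range T)) Om := by
    refine hc.isAlgebraic_iff.2 fun j => IntermediateField.isAlgebraic_adjoin_iff.1 ?_
    have : IsAlgebraic F1 (⟨c j, b3 j⟩ : E) := Algebra.IsAlgebraic.isAlgebraic _
    exact IntermediateField.isAlgebraic_iff.1 this
  exact Algebra.IsAlgebraic.isTranscendenceBasis_of_le_trdeg_of_finite ℂ T
    hc.cardinalMk_eq_trdeg.le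

theorem linmain (d : ℕ) (hd : 2 ≤ d) : ∃ c : ℝ, 0 < c ∧ ∃ n0 : ℕ, ∀ n, n0 ≤ n →
    ∀ (𝔭 : Ideal (MvPolynomial (Fin d ⊕ Fin (d - 1)) ℂ)) [𝔭.IsPrime],
      𝔭 ∈ (MvPolynomial.vanishingIdeal ℂ (Xn d n)).minimalPrimes →
      ∀ {ι : Type} (t : ι → FractionRing (MvPolynomial (Fin d ⊕ Fin (d - 1)) ℂ ⧸ 𝔭)),
        IsTranscendenceBasis ℂ t →
        c * n ≤ Module.finrank (IntermediateField.adjoin ℂ (Set.range t))
          (FractionRing (MvPolynomial (Fin d ⊕ Fin (d - 1)) ℂ ⧸ 𝔭)) := by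
  have : Algebra.IsAlgebraic (MvPolynomial (Fin (2 * d + 1)) ℂ)
      (FractionRing (MvPolynomial (Fin (2 * d + 1)) ℂ)) :=
    IsLocalization.isAlgebraic _ (nonZeroDivisors _)
  have hc := ((IsTranscendenceBasis.mvPolynomial (Fin (2 * d + 1)) ℂ).algebraMap_comp
    (A := FractionRing (MvPolynomial (Fin (2 * d + 1)) ℂ))).algebraMap_comp
    (A := AlgebraicClosure (FractionRing (MvPolynomial (Fin (2 * d + 1)) ℂ)))
  obtain ⟨w, winj, hw, Q, n0, hQ, hn0⟩ := lincore d hd _ hc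
  obtain ⟨e, he⟩ : ∃ e : ℕ, e = (d ^ 3 + 1) ^ 3 := ⟨_, rfl⟩
  have he1 : (1 : ℝ) ≤ e := by
    rw [he]
    exact_mod_cast Nat.one_le_pow _ _ (Nat.succ_pos _)
  refine ⟨(11 * Q * e + 1)⁻¹, by positivity, max n0 1, fun n hn 𝔭 _ hp ι t ht => ?_⟩
  obtain ⟨htr, hP⟩ := red1 hd n 𝔭 hp
  obtain ⟨x0, T, a1, a2, a3, a4⟩ := linred_data hd _ hc w winj hw
    (le_trans (le_max_right _ _) hn) (genPt 𝔭) (adjoin_genPt 𝔭) htr hP t ht le_rfl
  have h1 := hn0 n (le_trans (le_max_left _ _) hn) x0 a1 T a2 a3 _ a4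
  have := red3_fin (genPt 𝔭) (adjoin_genPt 𝔭) ht
  have h2 : (1 : ℝ) ≤ Module.finrank (IntermediateField.adjoin ℂ (Set.range t))
      (FractionRing (MvPolynomial (Fin d ⊕ Fin (d - 1)) ℂ ⧸ 𝔭)) := by
    exact_mod_cast Module.finrank_pos
  rw [← he, Nat.cast_mul] at h1
  generalize (Module.finrank (IntermediateField.adjoin ℂ (Set.range t))
    (FractionRing (MvPolynomial (Fin d ⊕ Fin (d - 1)) ℂ ⧸ 𝔭)) : ℝ) = B at h1 h2 ⊢
  rw [inv_mul_le_iff₀ (by positivity)]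
  have h3 : 1 ≤ B * e := one_le_mul_of_one_le_of_one_le h2 he1
  have h4 : Q * (3 + 8 * (B * e)) ≤ Q * (11 * (B * e)) := by
    refine mul_le_mul_of_nonneg_left ?_ hQ
    linarith
  nlinarith

end Pool.Agent.Lib.MP_0dd0d9_ag
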